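import Pool.Agent.LeoK.StrStmts
import Pool.Agent.Helper60_Leo3.Tools
import Pool.Agent.Helper11_Leo3.Loc

/-!
# Squad leok: tools for quadratic extensions
-/

set_option autoImplicit false

open NumberField IsDedekindDomain WithZero Module Polynomial
open Pool.Agent.Helper85_Leo Pool.Agent.Leo3

namespace Pool.Agent.LeoK.H69

open Pool.Agent.LeoK

/-! ### The Galois group -/

section gal

variable {k K : Type} [Field k] [Field K] [Algebra k K]

theorem fin_of (hF : finrank k K = 2) : FiniteDimensional k K :=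
  FiniteDimensional.of_finrank_pos (by rw [hF]; norm_num)

theorem gal_of [CharZero k] (hF : finrank k K = 2) : IsGalois k K := by
  haveI : Algebra.IsQuadraticExtension k K := ⟨hF⟩
  haveI := fin_of hF
  infer_instance

theorem gal_two [CharZero k] (hF : finrank k K = 2) {τ : K ≃ₐ[k] K} (hτ : τ ≠ 1)
    (g : K ≃ₐ[k] K) : g = 1 ∨ g = τ := by
  haveI := fin_of hF
  haveI := gal_of hF
  have hc : Nat.card (K ≃ₐ[k] K) = 2 := by rw [IsGalois.card_aut_eq_finrank, hF]
  by_contra h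
  push Not at h
  have h3 : 3 ≤ Nat.card (K ≃ₐ[k] K) := by
    classical
    rw [Nat.card_eq_fintype_card]
    have h4 : ({1, τ, g} : Finset (K ≃ₐ[k] K)).card = 3 := by
      rw [Finset.card_eq_three]
      exact ⟨1, τ, g, hτ.symm, h.1.symm, h.2.symm, rfl⟩
    rw [← h4]
    exact Finset.card_le_univ _
  omega

theorem exists_tau [CharZero k] (hF : finrank k K = 2) : ∃ τ : K ≃ₐ[k] K, τ ≠ 1 := by
  haveI := fin_of hF
  haveI := gal_of hF
  have hc : Nat.card (K ≃ₐ[k] K) = 2 := by rw [IsGalois.card_aut_eq_finrank, hF]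
  by_contra h
  push Not at h
  have h1 : Nat.card (K ≃ₐ[k] K) ≤ 1 := by
    haveI : Subsingleton (K ≃ₐ[k] K) := ⟨fun a b => (h a).trans (h b).symm⟩
    exact Finite.card_le_one_iff_subsingleton.mpr inferInstance
  omega

theorem tau_tau [CharZero k] (hF : finrank k K = 2) {τ : K ≃ₐ[k] K} (hτ : τ ≠ 1) (x : K) :
    τ (τ x) = x := by
  rcases gal_two hF hτ (τ * τ) with h | h
  · have h1 := congrArg (fun f : K ≃ₐ[k] K => f x) h
    exact h1
  · exfalso
    apply hτ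
    have h1 : τ * τ = τ * 1 := by rw [h, mul_one]
    exact mul_left_cancel h1

theorem norm_eq [CharZero k] (hF : finrank k K = 2) {τ : K ≃ₐ[k] K} (hτ : τ ≠ 1) (z : K) :
    algebraMap k K (Algebra.norm k z) = z * τ z := by
  classical
  haveI := fin_of hF
  haveI := gal_of hF
  rw [Algebra.norm_eq_prod_automorphisms]
  have hu : (Finset.univ : Finset (K ≃ₐ[k] K)) = {1, τ} := by
    ext g
    simpa using gal_two hF hτ g
  have h1 : (∏ σ : (K ≃ₐ[k] K), σ z) = ∏ σ ∈ ({1, τ} : Finset (K ≃ₐ[k] K)), σ z := by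
    rw [← hu]
  rw [h1, Finset.prod_pair hτ.symm]
  rfl

theorem of_fixed [CharZero k] (hF : finrank k K = 2) {τ : K ≃ₐ[k] K} (hτ : τ ≠ 1) {z : K}
    (hz : τ z = z) : ∃ x : k, algebraMap k K x = z := by
  haveI := fin_of hF
  haveI := gal_of hF
  have h := (IsGalois.mem_range_algebraMap_iff_fixed (F := k) (E := K) z).mpr (fun g => by
    rcases gal_two hF hτ g with h | h
    · rw [h]; rfl
    · rw [h]; exact hz)
  exact h

end gal

/-! ### Local elements -/

section loc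

variable {k K : Type} [Field k] [Field K] [Algebra k K]

theorem charZero_of_hom (φ : k →+* Om) : CharZero k := by
  refine ⟨fun a b h => ?_⟩
  have h1 := congrArg φ h
  rw [map_natCast, map_natCast] at h1
  exact_mod_cast h1

/-- QLO -/
theorem qlo (τ : K ≃ₐ[k] K) (hF : finrank k K = 2) (hτ : τ ≠ 1) (φ : K →+* Om)
    (ρ : Om ≃ₐ[ℚ_[3]] Om) (hρ : FixF (φ.comp (algebraMap k K)) ρ) :
    ((∀ x : K, ρ (φ x) = φ x) ∨ (∀ x : K, ρ (φ x) = φ (τ x))) ∧
      ∀ t : Om, InLoc φ t → InLoc φ (ρ t) := by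
  haveI : CharZero k := charZero_of_hom (φ.comp (algebraMap k K))
  haveI := fin_of hF
  haveI := gal_of hF
  obtain ⟨g, hg⟩ := Leo3.H11.exists_aut φ ρ hρ
  refine ⟨?_, fun t ht => Leo3.H11.inLoc_map φ ρ hρ t ht⟩
  rcases gal_two hF hτ g with h | h
  · left
    intro x
    rw [hg, h]
    rfl
  · right
    intro x
    rw [hg, h]

theorem inLoc_mul {φ : k →+* Om} {s t : Om} (hs : InLoc φ s) (ht : InLoc φ t) : InLoc φ (s * t) :=
  fun ρ hρ => by rw [map_mul, hs ρ hρ, ht ρ hρ]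

theorem inLoc_add {φ : k →+* Om} {s t : Om} (hs : InLoc φ s) (ht : InLoc φ t) : InLoc φ (s + t) :=
  fun ρ hρ => by rw [map_add, hs ρ hρ, ht ρ hρ]

theorem inLoc_inv {φ : k →+* Om} {s : Om} (hs : InLoc φ s) : InLoc φ s⁻¹ :=
  fun ρ hρ => by rw [map_inv₀, hs ρ hρ]

theorem inLoc_div {φ : k →+* Om} {s t : Om} (hs : InLoc φ s) (ht : InLoc φ t) : InLoc φ (s / t) :=
  fun ρ hρ => by rw [map_div₀, hs ρ hρ, ht ρ hρ]

theorem inLoc_pow {φ : k →+* Om} {s : Om} (hs : InLoc φ s) (n : ℕ) : InLoc φ (s ^ n) :=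
  fun ρ hρ => by rw [map_pow, hs ρ hρ]

theorem inLoc_phi (φ : k →+* Om) (x : k) : InLoc φ (φ x) := fun _ hρ => hρ x

/-- A homomorphism to `Om` extends to a finite extension. -/
theorem exists_ext [FiniteDimensional k K] (φ₀ : k →+* Om) :
    ∃ φ : K →+* Om, φ.comp (algebraMap k K) = φ₀ := by
  letI i1 : Algebra k Om := φ₀.toAlgebra
  let f : K →ₐ[k] Om := IsAlgClosed.lift
  refine ⟨f.toRingHom, ?_⟩
  ext x
  exact f.commutes x

/-- The product of local cube roots at `φ` and `φ ∘ τ` is local below. -/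
theorem inLoc_down (hmu : NoMu K) (τ : K ≃ₐ[k] K) (hF : finrank k K = 2) (hτ : τ ≠ 1)
    (φ : K →+* Om) {x : Om} (hx : InLoc φ x) {y : k} (hxy : x ^ 3 = φ (algebraMap k K y)) :
    InLoc (φ.comp (algebraMap k K)) x := by
  intro ρ hρ
  by_cases hx0 : x = 0
  · rw [hx0, map_zero]
  have h1 := (qlo τ hF hτ φ ρ hρ).2 x hx
  have h2 : (ρ x / x) ^ 3 = 1 := by
    rw [div_pow, ← map_pow, hxy]
    have h3 : ρ (φ (algebraMap k K y)) = φ (algebraMap k K y) := hρ y
    rw [h3, div_self]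
    rw [← hxy]
    exact pow_ne_zero 3 hx0
  have h3 := hmu φ (ρ x / x) (inLoc_div h1 hx) h2
  rwa [div_eq_one_iff_eq hx0] at h3

end loc

/-! ### Valuations -/

section val

/-- cubes in `ℤᵐ⁰` -/
theorem cu {y x : ℤᵐ⁰} {e : ℕ} (he : e = 1 ∨ e = 2) (h : y ^ e = x ^ 3) : ∃ c : ℤᵐ⁰, y = c ^ 3 := by
  rcases he with rfl | rfl
  · exact ⟨x, by rw [← h, pow_one]⟩
  · by_cases hy : y = 0
    · exact ⟨0, by rw [hy]; simp⟩
    refine ⟨y / x, ?_⟩
    rw [div_pow, ← h, eq_div_iff (pow_ne_zero 2 hy), pow_succ' y 2]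

variable {k K : Type} [Field k] [NumberField k] [Field K] [NumberField K] [Algebra k K]

/-- a prime above a given prime -/
theorem val_above (hF : finrank k K = 2) (q : HeightOneSpectrum (𝓞 k)) :
    ∃ (Q : HeightOneSpectrum (𝓞 K)) (e : ℕ), (e = 1 ∨ e = 2) ∧
      ((3 : 𝓞 k) ∉ q.asIdeal → (3 : 𝓞 K) ∉ Q.asIdeal) ∧
      ∀ x : k, q.valuation k x ^ e = Q.valuation K (algebraMap k K x) := by
  have hm : q.asIdeal.IsMaximal := q.isPrime.isMaximal q.ne_bot
  obtain ⟨Q, hQ, hover⟩ := Ideal.exists_maximal_ideal_liesOver_of_isIntegral (S := 𝓞 K) q.asIdeal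
  have hQ0 : Q ≠ ⊥ := Ideal.ne_bot_of_liesOver_of_ne_bot q.ne_bot Q
  let P : HeightOneSpectrum (𝓞 K) := ⟨Q, hQ.isPrime, hQ0⟩
  have : P.asIdeal.LiesOver q.asIdeal := hover
  have hP : P.asIdeal.IsPrime := hQ.isPrime
  haveI : NoZeroSMulDivisors (𝓞 k) (𝓞 K) :=
    ⟨fun {c x} h => by
      rw [Algebra.smul_def, mul_eq_zero] at h
      rcases h with h | h
      · exact Or.inl (FaithfulSMul.algebraMap_injective (𝓞 k) (𝓞 K) (h.trans (map_zero _).symm))
      · exact Or.inr h⟩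
  have h1 := Ideal.ramificationIdx_le_finrank (R := 𝓞 k) (S := 𝓞 K) k K (p := q.asIdeal) P.asIdeal
  have h2 := Ideal.IsDedekindDomain.ramificationIdx'_ne_zero_of_liesOver (R := 𝓞 k) P.asIdeal q.ne_bot
  rw [hF] at h1
  refine ⟨P, q.asIdeal.ramificationIdx' P.asIdeal, by omega, ?_, ?_⟩
  · intro h3 h4
    apply h3
    have h5 : q.asIdeal = P.asIdeal.under (𝓞 k) := hover.over
    rw [h5, Ideal.mem_comap]
    have h6 : algebraMap (𝓞 k) (𝓞 K) 3 = 3 := map_ofNat _ 3
    rw [h6]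
    exact h4
  · intro x
    exact HeightOneSpectrum.valuation_liesOver K q P x

theorem valCube3_conj {F : Type} [Field F] [NumberField F] (σ : F ≃+* F) {z : F}
    (h : ValCube3 z) : ValCube3 (σ z) := by
  intro q hq
  obtain ⟨q', hid, hv⟩ := Leo3.H60.valuation_conj σ q
  rw [hv]
  refine h q' ?_
  rw [hid, Ideal.mem_comap]
  intro h6
  apply hq
  have : RingOfIntegers.mapRingEquiv σ (3 : 𝓞 F) = 3 := map_ofNat _ 3
  rw [← this]
  exact h6

end val

end Pool.Agent.LeoK.H69
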