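import Pool.Agent.LeoK.StrStmts
import Pool.Agent.Helper69_LeoK.Tools

/-!
# Squad leok: modules QLO, NMF, REDP
-/

set_option autoImplicit false

open NumberField IsDedekindDomain WithZero Module Polynomial
open Pool.Agent.Helper85_Leo Pool.Agent.Leo3

namespace Pool.Agent.LeoK.H69

open Pool.Agent.LeoK

/-- QLO -/
theorem qloS : QloStmt := by
  intro k K _ _ _ τ hF hτ φ ρ hρ
  exact qlo τ hF hτ φ ρ hρ

/-- NMF -/
theorem nmf : NmfStmt := by
  intro k K _ _ _ _ _ m r hF hr hnsq hk hno φ t ht ht3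
  by_contra hne
  haveI := gal_of hF
  obtain ⟨τ, hτ⟩ := Leo3.H60.exists_conj (K := k) (L := K) r (3 * (m : k)) hr (by
    intro x hx
    apply hnsq x
    apply (algebraMap k K).injective
    rw [map_pow, hx, hr])
  have hr0 : r ≠ 0 := by
    rintro rfl
    apply hnsq 0
    apply (algebraMap k K).injective
    rw [← hr]
    simp
  have hτ1 : τ ≠ 1 := by
    rintro rfl
    have h1 : r = -r := hτ
    have h2 : 2 * r = 0 := by linear_combination h1
    rcases mul_eq_zero.mp h2 with h | h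
    · norm_num at h
    · exact hr0 h
  obtain ⟨φ₀, hφ₀⟩ : ∃ φ₀ : k →+* Om, φ₀ = φ.comp (algebraMap k K) := ⟨_, rfl⟩
  -- the square root of `-3`
  have hq : t ^ 2 + t + 1 = 0 := by
    have h1 : (t - 1) * (t ^ 2 + t + 1) = 0 := by linear_combination ht3
    rcases mul_eq_zero.mp h1 with h | h
    · exact absurd (sub_eq_zero.mp h) hne
    · exact h
  obtain ⟨w, hw⟩ : ∃ w : Om, w = 2 * t + 1 := ⟨_, rfl⟩
  have hw2 : w ^ 2 = -3 := by rw [hw]; linear_combination 4 * hq
  have hwfix : ∀ ρ : Om ≃ₐ[ℚ_[3]] Om, ρ w = w → ρ t = t := by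
    intro ρ h
    have h1 : 2 * ρ t = 2 * t := by
      have h2 : ρ w = 2 * ρ t + 1 := by rw [hw, map_add, map_mul, map_ofNat, map_one]
      linear_combination h - h2 + hw
    exact mul_left_cancel₀ two_ne_zero h1
  have hpm : ∀ ρ : Om ≃ₐ[ℚ_[3]] Om, ρ w = w ∨ ρ w = -w := by
    intro ρ
    have h1 : (ρ w - w) * (ρ w + w) = 0 := by
      have h2 : (ρ w) ^ 2 = -3 := by rw [← map_pow, hw2, map_neg, map_ofNat]
      linear_combination h2 - hw2
    rcases mul_eq_zero.mp h1 with h | h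
    · left; linear_combination h
    · right; linear_combination h
  by_cases hall : ∀ ρ : Om ≃ₐ[ℚ_[3]] Om, FixF φ₀ ρ → ρ t = t
  · exact hne (hk φ₀ t hall ht3)
  · push Not at hall
    obtain ⟨ρ₀, hρ₀, hρ₀t⟩ := hall
    have hρ₀w : ρ₀ w = -w := by
      rcases hpm ρ₀ with h | h
      · exact absurd (hwfix ρ₀ h) hρ₀t
      · exact h
    have h0 : ∀ x : K, ρ₀ (φ x) = φ (τ x) := by
      rcases (qlo τ hF hτ1 φ ρ₀ (by rw [← hφ₀]; exact hρ₀)).1 with h | h
      · exact absurd (ht ρ₀ h) hρ₀t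
      · exact h
    obtain ⟨y, hy⟩ : ∃ y : Om, y = w * φ r / 3 := ⟨_, rfl⟩
    refine hno φ₀ y ?_ ?_
    · intro ρ hρ
      rcases (qlo τ hF hτ1 φ ρ (by rw [← hφ₀]; exact hρ)).1 with h | h
      · have h1 : ρ t = t := ht ρ h
        rw [hy, hw, map_div₀, map_mul, map_add, map_mul, map_ofNat, map_one, map_ofNat, h1, h]
      · have h1 : ρ₀.symm (ρ t) = t := by
          refine ht (ρ.trans ρ₀.symm) ?_
          intro x
          rw [AlgEquiv.trans_apply, h, ← h0, AlgEquiv.symm_apply_apply]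
        have h2 : ρ t = ρ₀ t := by rw [AlgEquiv.symm_apply_eq] at h1; exact h1
        have h4 : ρ w = ρ₀ w := by
          have h5 : ρ w = 2 * ρ t + 1 := by rw [hw, map_add, map_mul, map_ofNat, map_one]
          have h6 : ρ₀ w = 2 * ρ₀ t + 1 := by rw [hw, map_add, map_mul, map_ofNat, map_one]
          rw [h5, h6, h2]
        have h3 : ρ w = -w := by rw [h4, hρ₀w]
        rw [hy, map_div₀, map_mul, h3, h, hτ, map_neg, map_ofNat]
        ring
    · have hR : φ r ^ 2 = 3 * φ₀ (m : k) := by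
        rw [← map_pow, hr, hφ₀, map_mul, map_mul, map_ofNat, map_ofNat]
        rfl
      rw [hy, div_pow, mul_pow, hw2, hR]
      ring

/-- REDP -/
theorem redp : RedpStmt := by
  intro k K _ _ _ _ _ hF hmu hk hm z hz hval hloc
  haveI := fin_of hF
  obtain ⟨τ, hτ⟩ := exists_tau hF
  have hn := norm_eq hF hτ z
  have hτz : τ z ≠ 0 := by simpa using hz
  have hN0 : Algebra.norm k z ≠ 0 := by
    intro h
    rw [h, map_zero] at hn
    rcases mul_eq_zero.mp hn.symm with h1 | h1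
    · exact hz h1
    · exact hτz h1
  have hvalτ : ValCube3 (τ z) := valCube3_conj (τ : K ≃+* K) hval
  have hNval : ValCube3 (Algebra.norm k z) := by
    intro q hq
    obtain ⟨Q, e, he, h3, hv⟩ := val_above hF q
    obtain ⟨x1, hx1⟩ := hval Q (h3 hq)
    obtain ⟨x2, hx2⟩ := hvalτ Q (h3 hq)
    refine cu (x := x1 * x2) he ?_
    rw [hv, hn, map_mul, hx1, hx2, mul_pow]
  have hNloc : LocCube (Algebra.norm k z) := by
    intro φ₀
    obtain ⟨φ, hφ⟩ := exists_ext (K := K) φ₀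
    obtain ⟨t, ht, ht3⟩ := hloc φ
    obtain ⟨t', ht', ht3'⟩ := hloc (φ.comp (τ : K →+* K))
    have ht'' : InLoc φ t' := fun ρ hρ => ht' ρ (fun x => hρ (τ x))
    refine ⟨t * t', ?_, ?_⟩
    · rw [← hφ]
      refine inLoc_down hmu τ hF hτ φ (inLoc_mul ht ht'') (y := Algebra.norm k z) ?_
      rw [mul_pow, ht3, ht3', hn, map_mul]
      rfl
    · rw [mul_pow, ht3, ht3', ← hφ]
      have h1 : (φ.comp (algebraMap k K)) (Algebra.norm k z) = φ (z * τ z) := by
        rw [← hn]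
        rfl
      rw [h1, map_mul]
      rfl
  obtain ⟨c, hc⟩ := hk _ hN0 hNval hNloc
  exact hm z hz ⟨c, hc.symm⟩ hval hloc

end Pool.Agent.LeoK.H69
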